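import Pool.Agent.Run7.h230.QF.Stm

/-!
# Project QF, piece CNJ
-/

set_option autoImplicit false

namespace Pool.Agent.Run7.h937.QF

open Pool.Agent.Run7.h230.QF
open Pool.Agent.H97R3.VR (IsMedian IsConvex Btw)
open Pool.Agent.TH97.VR (walls)
open Pointwise

variable {V : Type} {k : ℕ} {Γ : SimpleGraph V}

lemma Cm.symm' {S : Type} {X Y : Set S} (h : Cm X Y) : Cm Y X := ⟨h.2, h.1⟩

lemma Cm.smul' {S G : Type} [Group G] [MulAction G S] {X Y : Set S} (h : Cm X Y) (g : G) :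
    Cm (g • X) (g • Y) := by
  refine ⟨?_, ?_⟩
  · rw [← Set.smul_set_sdiff]; exact h.1.smul_set
  · rw [← Set.smul_set_sdiff]; exact h.2.smul_set

lemma ncard_smul {S G : Type} [Group G] [MulAction G S] (X : Set S) (g : G) :
    (g • X).ncard = X.ncard :=
  Set.ncard_image_of_injective X (MulAction.injective g)

lemma ind_smul {S G : Type} [Group G] [MulAction G S] (X Y : Set S) (g : G) :
    ind (g • X) (g • Y) = ind X Y := by
  unfold ind
  rw [← Set.smul_set_sdiff, ← Set.smul_set_sdiff, ncard_smul, ncard_smul]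

lemma ind_symm {S : Type} (X Y : Set S) : ind Y X = -ind X Y := by
  unfold ind; ring

/-- The positive half-spaces from `t` on. -/
def WT (Γ : SimpleGraph V) (f : (Fin k → ℤ) → V) (i : Fin k) (t : ℤ) : Set (Set V) :=
  {A | ∃ j : ℤ, t ≤ j ∧ A = HS Γ f i j}

lemma WP_eq (f : (Fin k → ℤ) → V) (i : Fin k) : WP Γ f i = WT Γ f i 0 := rfl

lemma WT_shift (hΓ : IsMedian Γ) {f : (Fin k → ℤ) → V} (hf : IsFlat Γ f) (b : Fin k → ℤ)
    (i : Fin k) (t : ℤ) : WT Γ (fun z => f (z + b)) i t = WT Γ f i (t + b i) := by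
  ext A
  constructor
  · rintro ⟨j, hj, rfl⟩
    exact ⟨j + b i, by omega, hf.HS_shift hΓ b i j⟩
  · rintro ⟨j, hj, rfl⟩
    refine ⟨j - b i, by omega, ?_⟩
    rw [hf.HS_shift hΓ b i (j - b i)]
    congr 1
    omega

lemma WT_smul {G : Type} [Group G] [MulAction G V] (hA : Act G Γ)
    (f : (Fin k → ℤ) → V) (g : G) (i : Fin k) (t : ℤ) :
    WT Γ (fun z => g • f z) i t = g • WT Γ f i t := by
  ext A
  rw [Set.mem_smul_set]
  constructor
  · rintro ⟨j, hj, rfl⟩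
    exact ⟨_, ⟨j, hj, rfl⟩, (IsFlat.HS_smul hA f g i j).symm⟩
  · rintro ⟨B, ⟨j, hj, rfl⟩, rfl⟩
    exact ⟨j, hj, (IsFlat.HS_smul hA f g i j).symm⟩

/-- Agreement of a translated shift gives the same half-spaces. -/
lemma HS_agree {G : Type} [Group G] [MulAction G V] (hA : Act G Γ) {f : (Fin k → ℤ) → V}
    (hf : IsFlat Γ f) {R : ℕ} {p₁ p₂ : Fin k → ℤ} {q : G}
    (hag : Agree (fun z => q • f (z + p₁)) (fun z => f (z + p₂)) R) (i : Fin k) (l : ℤ)
    (h1 : -(R : ℤ) ≤ l) (h2 : l < R) :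
    q • HS Γ f i (l + p₁ i) = HS Γ f i (l + p₂ i) := by
  have hf1 : IsFlat Γ (fun z => q • f (z + p₁)) := (hf.shift p₁).smul hA q
  have hf2 := hf.shift p₂
  have hs : ∀ (t : ℤ), |t| ≤ (R : ℤ) → ∀ i', |(Pi.single i t : Fin k → ℤ) i'| ≤ (R : ℤ) := by
    intro t ht i'
    by_cases h : i' = i
    · subst h; simpa using ht
    · rw [Pi.single_eq_of_ne h]; simp
  have e1 := hag (Pi.single i l) (hs l (abs_le.2 ⟨h1, by omega⟩))
  have e2 := hag (Pi.single i (l + 1)) (hs (l + 1) (abs_le.2 ⟨by omega, by omega⟩))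
  rw [single_succ] at e2
  have h3 := IsFlat.HS_congr hA.med hf1 hf2 (z := Pi.single i l) (w := Pi.single i l) (i := i)
    e1 e2
  rw [Pi.single_eq_same] at h3
  have h4 : HS Γ (fun z => q • f (z + p₁)) i l = q • HS Γ (fun z => f (z + p₁)) i l :=
    IsFlat.HS_smul hA (fun z => f (z + p₁)) q i l
  rw [h4, hf.HS_shift hA.med p₁, hf.HS_shift hA.med p₂] at h3
  exact h3

/-- The main comparison: from `Det` and COMM. -/
lemma comm_both {G : Type} [Group G] [MulAction G V] (hC : S_COMM) (hA : Act G Γ) {N : ℕ}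
    (hN : ¬ Grid Γ (k + 1) N) {L : Set ((Fin k → ℤ) → V)} (hL : Sys G Γ L) {i : Fin k} {R : ℕ}
    (hR : N + 1 ≤ R) (hD : Det Γ L i R) {f : (Fin k → ℤ) → V} (hf : f ∈ L) {p₁ p₂ : Fin k → ℤ}
    {q : G} (hag : Agree (fun z => q • f (z + p₁)) (fun z => f (z + p₂)) R) :
    Cm (WT Γ f i (p₂ i)) (q • WT Γ f i (p₁ i)) ∧
      |ind (WT Γ f i (p₂ i)) (q • WT Γ f i (p₁ i))| ≤ (2 * k + 1) * N := by
  have hff := hL.flat f hf
  have m1 : (fun z => q • f (z + p₁)) ∈ L := hL.smul _ (hL.shift _ hf p₁) q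
  have m2 : (fun z => f (z + p₂)) ∈ L := hL.shift _ hf p₂
  have hag' : Agree (fun z => f (z + p₂)) (fun z => q • f (z + p₁)) R :=
    fun z hz => (hag z hz).symm
  have hN1 : Agree (fun z => q • f (z + p₁)) (fun z => f (z + p₂)) N :=
    fun z hz => hag z fun i => (hz i).trans (by exact_mod_cast (by omega : N ≤ R))
  have hN2 : Agree (fun z => f (z + p₂)) (fun z => q • f (z + p₁)) N :=
    fun z hz => (hN1 z hz).symm
  have c1 := hC V Γ hA.med k N hN _ _ (hL.flat _ m1) (hL.flat _ m2) hN1 i (hD _ m1 _ m2 hag)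
  have c2 := hC V Γ hA.med k N hN _ _ (hL.flat _ m2) (hL.flat _ m1) hN2 i (hD _ m2 _ m1 hag')
  have w1 : WP Γ (fun z => q • f (z + p₁)) i = q • WT Γ f i (p₁ i) := by
    rw [WP_eq, WT_smul hA (fun z => f (z + p₁)) q i 0, WT_shift hA.med hff p₁ i 0, zero_add]
  have w2 : WP Γ (fun z => f (z + p₂)) i = WT Γ f i (p₂ i) := by
    rw [WP_eq, WT_shift hA.med hff p₂ i 0, zero_add]
  rw [w1, w2] at c1 c2
  refine ⟨⟨c2.1, c1.1⟩, ?_⟩
  unfold ind
  have a1 : ((WT Γ f i (p₂ i) \ q • WT Γ f i (p₁ i)).ncard : ℤ) ≤ (2 * k + 1) * N := by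
    exact_mod_cast c2.2
  have a2 : ((q • WT Γ f i (p₁ i) \ WT Γ f i (p₂ i)).ncard : ℤ) ≤ (2 * k + 1) * N := by
    exact_mod_cast c1.2
  have b1 : (0 : ℤ) ≤ ((WT Γ f i (p₂ i) \ q • WT Γ f i (p₁ i)).ncard : ℤ) := by positivity
  have b2 : (0 : ℤ) ≤ ((q • WT Γ f i (p₁ i) \ WT Γ f i (p₂ i)).ncard : ℤ) := by positivity
  rw [abs_le]
  constructor <;> linarith

theorem t_CNJ : S_IDX → S_COMM → S_CNJ := by
  intro hI hC V G _ _ Γ hA k N hN L hL i i₂ R hi hR hD f hf n₁ n₂ q hag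
  have hff := hL.flat f hf
  have s1 : (Pi.single i₂ n₁ : Fin k → ℤ) i = 0 := Pi.single_eq_of_ne (Ne.symm hi) _
  have s2 : (Pi.single i₂ n₂ : Fin k → ℤ) i = 0 := Pi.single_eq_of_ne (Ne.symm hi) _
  obtain ⟨hcm, -⟩ := comm_both hC hA hN hL hR hD hf hag
  rw [s1, s2] at hcm
  have hsh : ∀ n : ℤ, WP Γ (fun z => f (z + Pi.single i₂ n)) i = WP Γ f i := by
    intro n
    rw [WP_eq, WP_eq, WT_shift hA.med hff, Pi.single_eq_of_ne (Ne.symm hi), zero_add]
  set W := WT Γ f i 0 with hW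
  refine ⟨?_, ?_⟩
  · have h := HS_agree hA hff hag i₂ 0 (by omega) (by omega)
    simpa using h
  · intro g hg
    obtain ⟨g1, g2⟩ := hg
    rw [hsh, WP_eq, ← hW] at g1
    have c1 : Cm W (q • W) := hcm
    have c2 : Cm (q • W) (q • g • W) := Cm.smul' g1 q
    have c3 : Cm (q • g • W) (q • g • q⁻¹ • W) := by
      have h := (Cm.smul' hcm q⁻¹)
      rw [inv_smul_smul] at h
      exact Cm.smul' (Cm.smul' (Cm.symm' h) g) q
    obtain ⟨d1, e1⟩ := hI _ _ _ _ c1 c2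
    obtain ⟨d2, e2⟩ := hI _ _ _ _ d1 c3
    have hact : (q * g * q⁻¹) • W = q • g • q⁻¹ • W := by
      rw [mul_smul, mul_smul]
    refine ⟨⟨?_, ?_⟩, ?_⟩
    · rw [hsh, WP_eq, ← hW, hact]
      exact d2
    · intro i' hi' l h0 hl
      have h3 := g2 i' hi' l h0 hl
      rw [hff.HS_shift hA.med] at h3 ⊢
      have h4 := HS_agree hA hff hag i' l (by omega) (by omega)
      rw [← h4, mul_smul, mul_smul, inv_smul_smul, h3]
    · unfold tau
      rw [WP_eq, ← hW, hact, e2, e1]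
      have f1 : ind (q • W) (q • g • W) = ind W (g • W) := ind_smul _ _ _
      have f2 : ind (q • g • W) (q • g • q⁻¹ • W) = ind W (q⁻¹ • W) := by
        rw [ind_smul, ind_smul]
      have f3 : ind W (q⁻¹ • W) = -ind W (q • W) := by
        rw [← ind_smul W (q⁻¹ • W) q, smul_inv_smul, ind_symm]
      rw [f1, f2, f3]
      ring

end Pool.Agent.Run7.h937.QF
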