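import Pool.Agent.Run7.h937.QF.CNJ

/-!
# Project QF, piece ELT
-/

set_option autoImplicit false

namespace Pool.Agent.Run7.h937.QF

open Pool.Agent.Run7.h230.QF
open Pool.Agent.H97R3.VR (IsMedian IsConvex Btw)
open Pool.Agent.TH97.VR (walls)
open Pointwise

variable {V : Type} {k : ℕ} {Γ : SimpleGraph V}

/-- The relative index of two tails. -/
lemma ind_tails {f : (Fin k → ℤ) → V} (hf : IsFlat Γ f) (i : Fin k) {s t : ℤ} (hst : s ≤ t) :
    Cm (WT Γ f i s) (WT Γ f i t) ∧ ind (WT Γ f i s) (WT Γ f i t) = t - s := by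
  have e1 : WT Γ f i s \ WT Γ f i t = (HS Γ f i) '' (Set.Ico s t) := by
    ext A
    constructor
    · rintro ⟨⟨j, hj, rfl⟩, h⟩
      refine ⟨j, ⟨hj, ?_⟩, rfl⟩
      by_contra hcon
      exact h ⟨j, by omega, rfl⟩
    · rintro ⟨j, ⟨h1, h2⟩, rfl⟩
      refine ⟨⟨j, h1, rfl⟩, ?_⟩
      rintro ⟨j', hj', h⟩
      have := (hf.HS_inj h).2
      omega
  have e2 : WT Γ f i t \ WT Γ f i s = ∅ := by
    rw [Set.sdiff_eq_empty]
    rintro A ⟨j, hj, rfl⟩
    exact ⟨j, by omega, rfl⟩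
  have hinj : Function.Injective (HS Γ f i) := fun a b h => (hf.HS_inj h).2
  refine ⟨⟨?_, ?_⟩, ?_⟩
  · rw [e1]; exact (Set.finite_Ico s t).image _
  · rw [e2]; exact Set.finite_empty
  · unfold ind
    rw [e1, e2, Set.ncard_image_of_injective _ hinj, Set.ncard_empty]
    have : (Set.Ico s t).ncard = (t - s).toNat := by
      rw [← Finset.coe_Ico, Set.ncard_coe_finset, Int.card_Ico]
    rw [this]
    have := Int.toNat_of_nonneg (show (0 : ℤ) ≤ t - s by omega)
    simp only [Nat.cast_zero, sub_zero]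
    exact this

theorem t_ELT : S_PIG → S_COMM → S_IDX → S_ELT := by
  intro hP hC hI V G _ _ Γ hA k N hN L hL i R hR hD f hf x hx
  have hff := hL.flat f hf
  obtain ⟨I, hI1, hI2⟩ := hP V G Γ hA k f hff R (fun n => x + Pi.single i (n : ℤ))
  obtain ⟨n, hn⟩ := hI1.nonempty
  obtain ⟨m, hm, hnm⟩ := hI1.exists_gt (n + (2 * k + 1) * N)
  obtain ⟨g, hg⟩ := hI2 n hn m hm
  set p₁ : Fin k → ℤ := x + Pi.single i (n : ℤ) with hp1
  set p₂ : Fin k → ℤ := x + Pi.single i (m : ℤ) with hp2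
  have q1 : p₁ i = n := by simp [hp1, hx]
  have q2 : p₂ i = m := by simp [hp2, hx]
  obtain ⟨hcm, hind⟩ := comm_both hC hA hN hL hR hD hf hg
  rw [q1, q2] at hcm hind
  have hnm' : (n : ℤ) + (2 * k + 1) * N < m := by exact_mod_cast hnm
  have hkN : (0 : ℤ) ≤ (2 * k + 1) * N := by positivity
  obtain ⟨c1, e1⟩ := ind_tails hff i (show (0 : ℤ) ≤ m by positivity)
  obtain ⟨c2, e2⟩ := ind_tails hff i (show (0 : ℤ) ≤ n by positivity)
  set W := WT Γ f i 0 with hW
  have c3 : Cm (g • WT Γ f i n) (g • W) := Cm.smul' (Cm.symm' c2) g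
  obtain ⟨d1, r1⟩ := hI _ _ _ _ c1 hcm
  obtain ⟨d2, r2⟩ := hI _ _ _ _ d1 c3
  have e3 : ind (g • WT Γ f i n) (g • W) = -(n : ℤ) := by
    rw [ind_smul, ind_symm, e2]; ring
  refine ⟨g, ?_, ?_⟩
  · unfold tau
    rw [WP_eq, ← hW, r2, r1, e1, e3]
    have := (abs_le.1 hind).1
    intro h
    linarith
  · intro x' hx' hxx
    refine ⟨?_, ?_⟩
    · rw [WP_eq, WT_shift hA.med hff, hx', zero_add]
      exact d2
    · intro i' hi' l h0 hl
      rw [hff.HS_shift hA.med]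
      have hb := abs_le.1 (hxx i')
      have h3 : p₁ i' = x i' := by simp [hp1, Pi.single_eq_of_ne hi']
      have h4 : p₂ i' = x i' := by simp [hp2, Pi.single_eq_of_ne hi']
      have hR' : (N : ℤ) + 1 ≤ R := by exact_mod_cast hR
      have h5 := HS_agree hA hff hg i' (l + x' i' - x i') (by omega) (by omega)
      rw [h3, h4] at h5
      have h6 : l + x' i' - x i' + x i' = l + x' i' := by ring
      rw [h6] at h5
      exact h5

end Pool.Agent.Run7.h937.QF
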